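import Pool.Agent.Lib.EWB.Smooth

/-!
MP_0cb801_nt: Erdos-Woods numbers. For all K and k there are k+1 consecutive integers d such
that whenever the interval (a, a+d) has property NC, both endpoints a and a+d have more than K
prime factors that are smaller than d and do not divide d, one of them at most d^(1/K).
-/

namespace Pool.Agent.Results.MP_0cb801_nt.FewPrimes

open Finset

/-- Property `NC(a,d)`: every integer strictly between `a` and `a+d` has a common factor
with `a` or with `a+d`. -/
def NC (a d : ℕ) : Prop :=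
  ∀ c : ℕ, a < c → c < a + d → 1 < Nat.gcd a c ∨ 1 < Nat.gcd c (a + d)

/-- The prime factors of `x` that are smaller than `d` and do not divide `d`. -/
def relevant (x d : ℕ) : Finset ℕ := x.primeFactors.filter (fun p => p < d ∧ ¬ p ∣ d)

/-- The endpoint `x` is simple: it has at most `K` prime factors that are smaller than `d` and
do not divide `d`, or all these prime factors `p` are large, `p ^ K > d`. -/
def SimpleEnd (K x d : ℕ) : Prop :=
  (relevant x d).card ≤ K ∨ ∀ p ∈ relevant x d, d < p ^ K

/-- `d` is an Erdos-Woods number with a witness `a` such that one of the endpoints `a`, `a+d`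
is simple. -/
def EWBound (K d : ℕ) : Prop :=
  0 < d ∧ ∃ a : ℕ, 0 < a ∧ NC a d ∧ (SimpleEnd K a d ∨ SimpleEnd K (a + d) d)

/-- The closed set argument. -/
lemma core {K d X Y : ℕ} (hd : 1 < d) (hX : 0 < X)
    (hXY : ∀ p : ℕ, p.Prime → p ∣ X → ¬ p ∣ d → ¬ p ∣ Y)
    (hH : ∀ b : ℕ, 0 < b → b < d → Nat.Coprime Y b → ¬ Nat.Coprime X (d - b))
    (hs : ∀ q : ℕ, q.Prime → q ∣ d - 1 → q ^ (2 * K * K) ≤ d)
    (hsimple : SimpleEnd K X d) : False := by
  classical
  -- the set of relevant primes is closed
  have hclosed : ∀ b : ℕ, 0 < b → b < d → (∀ p : ℕ, p.Prime → p ∣ b → p ∈ relevant X d) →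
      ∃ l ∈ relevant X d, l ∣ d - b := by
    intro b hb hbd hbB
    have hcop : Nat.Coprime Y b := by
      by_contra hc
      obtain ⟨p, hp, hpY, hpb⟩ := Nat.Prime.not_coprime_iff_dvd.1 hc
      have hpB := hbB p hp hpb
      rw [relevant, mem_filter] at hpB
      exact hXY p hp (Nat.dvd_of_mem_primeFactors hpB.1) hpB.2.2 hpY
    obtain ⟨l, hl, hlX, hld⟩ := Nat.Prime.not_coprime_iff_dvd.1 (hH b hb hbd hcop)
    refine ⟨l, ?_, hld⟩
    rw [relevant, mem_filter]
    refine ⟨Nat.mem_primeFactors.2 ⟨hl, hlX, hX.ne'⟩, ?_, ?_⟩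
    · have := Nat.le_of_dvd (by omega) hld
      omega
    · intro hldd
      have hlb : l ∣ b := by
        have := Nat.dvd_sub hldd hld
        have h2 : d - (d - b) = b := by omega
        rwa [h2] at this
      have hpB := hbB l hl hlb
      rw [relevant, mem_filter] at hpB
      exact hpB.2.2 hldd
  -- a small prime in the set
  obtain ⟨q, hqB, hqd⟩ := hclosed 1 one_pos hd (by
    intro p hp hp1
    exact absurd (Nat.dvd_one.1 hp1) hp.one_lt.ne')
  have hqp : q.Prime := by
    rw [relevant, mem_filter] at hqB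
    exact Nat.prime_of_mem_primeFactors hqB.1
  have hqs := hs q hqp hqd
  rcases Nat.eq_zero_or_pos K with hK0 | hKpos
  · subst hK0
    rcases hsimple with h | h
    · exact absurd h (by have := card_pos.2 ⟨q, hqB⟩; omega)
    · have := h q hqB
      rw [pow_zero] at this
      omega
  have hcard : (relevant X d).card ≤ K := by
    rcases hsimple with h | h
    · exact h
    · exfalso
      have h1 := h q hqB
      have h2 : q ^ K ≤ q ^ (2 * K * K) := by
        apply Nat.pow_le_pow_right hqp.pos
        have := Nat.le_mul_of_pos_right (2 * K) hKpos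
        omega
      omega
  set S : Finset ℕ := (relevant X d).filter (fun p => p ^ (2 * K) ≤ d) with hS
  have hqS : q ∈ S := by
    rw [hS, mem_filter]
    refine ⟨hqB, le_trans (Nat.pow_le_pow_right hqp.pos ?_) hqs⟩
    exact Nat.le_mul_of_pos_right _ hKpos
  set L : Finset ℕ := (relevant X d).filter (fun p => ¬ p ^ (2 * K) ≤ d) with hL
  have hSL : S.card + L.card = (relevant X d).card := by
    rw [hS, hL]
    exact card_filter_add_card_filter_not _
  have hSpos : 0 < S.card := card_pos.2 ⟨q, hqS⟩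
  have hprimeB : ∀ p ∈ relevant X d, p.Prime := by
    intro p hp
    rw [relevant, mem_filter] at hp
    exact Nat.prime_of_mem_primeFactors hp.1
  have hSprime : ∀ p ∈ S, p.Prime := fun p hp => hprimeB p (mem_of_mem_filter p hp)
  set P : ℕ := ∏ p ∈ S, p with hP
  have hPpos : 0 < P := Finset.prod_pos fun p hp => (hSprime p hp).pos
  have hPd : P ^ 2 ≤ d := by
    have h1 : (P ^ 2) ^ K ≤ d ^ K := by
      calc (P ^ 2) ^ K = ∏ p ∈ S, p ^ (2 * K) := by rw [← pow_mul, hP, Finset.prod_pow]
        _ ≤ ∏ _p ∈ S, d := Finset.prod_le_prod' fun p hp => (mem_filter.1 hp).2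
        _ = d ^ S.card := by rw [prod_const]
        _ ≤ d ^ K := Nat.pow_le_pow_right (by omega) (by omega)
    exact (Nat.pow_le_pow_iff_left hKpos.ne').1 h1
  have hqKd : (q ^ K) ^ 2 ≤ d := by
    calc (q ^ K) ^ 2 = q ^ (2 * K) := by rw [← pow_mul, mul_comm]
      _ ≤ d := (mem_filter.1 hqS).2
  have hPq : P * q ^ K ≤ d := by
    have h1 : (P * q ^ K) ^ 2 ≤ d ^ 2 := by
      rw [mul_pow, sq d]
      exact Nat.mul_le_mul hPd hqKd
    exact (Nat.pow_le_pow_iff_left two_ne_zero).1 h1
  -- the numbers b_i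
  have hb : ∀ i ∈ range K, 0 < P * q ^ i ∧ P * q ^ i < d := by
    intro i hi
    have hiK := mem_range.1 hi
    refine ⟨Nat.mul_pos hPpos (pow_pos hqp.pos _), lt_of_lt_of_le ?_ hPq⟩
    exact Nat.mul_lt_mul_of_pos_left (Nat.pow_lt_pow_right hqp.one_lt hiK) hPpos
  have hbprime : ∀ i : ℕ, ∀ p : ℕ, p.Prime → p ∣ P * q ^ i → p ∈ S := by
    intro i p hp hpd
    rcases hp.dvd_mul.1 hpd with h | h
    · rw [hP] at h
      obtain ⟨r, hr, hpr⟩ := (Nat.prime_iff.1 hp).exists_mem_finset_dvd h
      rwa [(Nat.prime_dvd_prime_iff_eq hp (hSprime r hr)).1 hpr]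
    · rwa [(Nat.prime_dvd_prime_iff_eq hp hqp).1 (hp.dvd_of_dvd_pow h)]
  have hex : ∀ i ∈ range K, ∃ l ∈ L, l ∣ d - P * q ^ i := by
    intro i hi
    obtain ⟨l, hl, hld⟩ := hclosed (P * q ^ i) (hb i hi).1 (hb i hi).2
      (fun p hp hpd => mem_of_mem_filter p (hbprime i p hp hpd))
    refine ⟨l, ?_, hld⟩
    rw [hL, mem_filter]
    refine ⟨hl, ?_⟩
    intro hc
    have hlS : l ∈ S := by rw [hS, mem_filter]; exact ⟨hl, hc⟩
    have hlP : l ∣ P * q ^ i := Dvd.dvd.mul_right (dvd_prod_of_mem _ hlS) _
    have hldd : l ∣ d := by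
      have := dvd_add hld hlP
      have h2 : d - P * q ^ i + P * q ^ i = d := by have := (hb i hi).2; omega
      rwa [h2] at this
    rw [relevant, mem_filter] at hl
    exact hl.2.2 hldd
  choose! f hfL hfd using hex
  have hcardL : L.card < (range K).card := by rw [card_range]; omega
  obtain ⟨i, hi, j, hj, hij, hfij⟩ := exists_ne_map_eq_of_card_lt_of_maps_to hcardL
    (fun i hi => hfL i hi)
  -- the pigeonhole contradiction, for i < j
  have key : ∀ i ∈ range K, ∀ j ∈ range K, i < j → f i = f j → False := by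
    intro i hi j hj hlt hf
    have hl := hfL i hi
    set l := f i with hlf
    have hlB : l ∈ relevant X d := mem_of_mem_filter l hl
    have hlp : l.Prime := hprimeB l hlB
    have hlbig : ¬ l ^ (2 * K) ≤ d := (mem_filter.1 hl).2
    have h1 : l ∣ d - P * q ^ i := hfd i hi
    have h2 : l ∣ d - P * q ^ j := by rw [hf]; exact hfd j hj
    have hle : P * q ^ i ≤ P * q ^ j :=
      Nat.mul_le_mul_left _ (Nat.pow_le_pow_right hqp.pos hlt.le)
    have h3 : l ∣ P * q ^ j - P * q ^ i := by
      have h4 := Nat.dvd_sub h1 h2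
      have h5 : d - P * q ^ i - (d - P * q ^ j) = P * q ^ j - P * q ^ i := by
        have := (hb j hj).2
        omega
      rwa [h5] at h4
    have h6 : P * q ^ j - P * q ^ i = P * q ^ i * (q ^ (j - i) - 1) := by
      rw [Nat.mul_sub, mul_one, mul_assoc, ← pow_add, Nat.add_sub_cancel' hlt.le]
    rw [h6] at h3
    have h7 : ¬ l ∣ P * q ^ i := by
      intro hc
      have := hbprime i l hlp hc
      exact hlbig (mem_filter.1 this).2
    have h8 : l ∣ q ^ (j - i) - 1 := (hlp.dvd_mul.1 h3).resolve_left h7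
    have h9 : 1 < q ^ (j - i) := Nat.one_lt_pow (by omega) hqp.one_lt
    have h10 : l ≤ q ^ (j - i) - 1 := Nat.le_of_dvd (by omega) h8
    have h11 : q ^ (j - i) ≤ q ^ K := Nat.pow_le_pow_right hqp.pos (by
      have := mem_range.1 hj
      omega)
    have h12 : l ≤ q ^ K := by omega
    apply hlbig
    calc l ^ (2 * K) ≤ (q ^ K) ^ (2 * K) := Nat.pow_le_pow_left h12 _
      _ = q ^ (2 * K * K) := by rw [← pow_mul]; ring_nf
      _ ≤ d := hqs
  rcases Nat.lt_or_gt_of_ne hij with h | h
  · exact key i hi j hj h hfij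
  · exact key j hj i hi h hfij.symm

lemma not_bound {K d : ℕ} (hd : 1 < d)
    (hs : ∀ q : ℕ, q.Prime → q ∣ d - 1 → q ^ (2 * K * K) ≤ d) : ¬ EWBound K d := by
  rintro ⟨-, a, ha, hNC, hcard⟩
  rcases hcard with hcard | hcard
  · -- X = a, Y = a + d
    refine core (X := a) (Y := a + d) hd ha ?_ ?_ hs hcard
    · intro p _ hpa hpd hpad
      exact hpd ((Nat.dvd_add_right hpa).1 hpad)
    · intro b hb hbd hcop hcop2
      rcases hNC (a + (d - b)) (by omega) (by omega) with h | h
      · rw [Nat.gcd_self_add_right] at h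
        rw [Nat.Coprime] at hcop2
        omega
      · have h1 : a + d = (a + (d - b)) + b := by omega
        have h2 : Nat.gcd (a + (d - b)) (a + d) = Nat.gcd (a + d) b := by
          rw [h1, Nat.gcd_self_add_right, Nat.gcd_add_self_left]
        rw [h2] at h
        rw [Nat.Coprime] at hcop
        omega
  · -- X = a + d, Y = a
    refine core (X := a + d) (Y := a) hd (by omega) ?_ ?_ hs hcard
    · intro p _ hpad hpd hpa
      exact hpd ((Nat.dvd_add_right hpa).1 hpad)
    · intro b hb hbd hcop hcop2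
      rcases hNC (a + b) (by omega) (by omega) with h | h
      · rw [Nat.gcd_self_add_right] at h
        rw [Nat.Coprime] at hcop
        omega
      · have h1 : a + d = (a + b) + (d - b) := by omega
        have h2 : Nat.gcd (a + b) (a + d) = Nat.gcd (a + d) (d - b) := by
          rw [h1, Nat.gcd_self_add_right, Nat.gcd_add_self_left]
        rw [h2] at h
        rw [Nat.Coprime] at hcop2
        omega

/-- For all `K`, `k` and `T` there is `e > T` such that none of `e, e+1, ..., e+k` is an
Erdos-Woods number with a witness one of whose two endpoints is simple: has at most `K` prime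
factors smaller than `d` and not dividing `d`, or only such prime factors with `p ^ K > d`. -/
theorem result : ∀ K k T : ℕ, ∃ e : ℕ, T < e ∧ ∀ d : ℕ, e ≤ d → d ≤ e + k → ¬ EWBound K d := by
  intro K k T
  obtain ⟨n, hn, h⟩ := Pool.Agent.Lib.EWB.smooth_run (2 * K * K) (k + 1) T
  refine ⟨n - k, by omega, ?_⟩
  intro d hd1 hd2
  have hd : 1 < d := by omega
  apply not_bound hd
  intro q hq hqd
  have h1 := h (n + 1 - d) (by omega) (by omega) q hq
  have h2 : n - (n + 1 - d) = d - 1 := by omega
  have h3 : n - (n + 1 - d) + 1 = d := by omega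
  rw [h2] at h1
  have := h1 hqd
  omega

end Pool.Agent.Results.MP_0cb801_nt.FewPrimes
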